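import Pool.Agent.Helper33.DP.Sheet

/-!
# Row PARTB (MP_fcb106_co): virtual least and greatest levels
-/

set_option autoImplicit false

namespace Pool.Agent.Helper22.PL

open Finset Pool.Agent.Helper33.DP

section cp

variable {α β : Type} [Primcodable α] [Primcodable β]

theorem cp_and {p q : α → Prop} (hp : ComputablePred p) (hq : ComputablePred q) :
    ComputablePred (fun a => p a ∧ q a) := by
  obtain ⟨_, hp⟩ := hp
  obtain ⟨_, hq⟩ := hq
  refine ⟨fun a => inferInstance, ?_⟩
  exact (Computable₂.comp Primrec.and.to_comp hp hq).of_eq fun a => by simp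

theorem cp_or {p q : α → Prop} (hp : ComputablePred p) (hq : ComputablePred q) :
    ComputablePred (fun a => p a ∨ q a) := by
  obtain ⟨_, hp⟩ := hp
  obtain ⟨_, hq⟩ := hq
  refine ⟨fun a => inferInstance, ?_⟩
  exact (Computable₂.comp Primrec.or.to_comp hp hq).of_eq fun a => by simp

theorem cp_comp {p : β → Prop} {f : α → β} (hp : ComputablePred p) (hf : Computable f) :
    ComputablePred (fun a => p (f a)) := by
  obtain ⟨_, hp⟩ := hp
  exact ⟨fun a => inferInstance, hp.comp hf⟩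

theorem cp_prim {p : α → Prop} (hp : PrimrecPred p) : ComputablePred p := by
  obtain ⟨hd, hp⟩ := hp
  exact ⟨hd, hp.to_comp⟩

end cp

/-- `P` with `w` new least points `0, …, w - 1` and `w` new greatest points `w, …, 2 w - 1`. -/
def PB (w : ℕ) (P : Set ℕ) : Set ℕ := {n | n < 2 * w ∨ n - 2 * w ∈ P}

/-- The order of the extended set. -/
def leB (w : ℕ) (P : Set ℕ) (le : ℕ → ℕ → Prop) (a b : ℕ) : Prop :=
  (a ∈ PB w P ∧ b ∈ PB w P) ∧
    (a = b ∨ ((a < w ∧ w ≤ b) ∨ (((w ≤ b ∧ b < 2 * w) ∧ (a < w ∨ 2 * w ≤ a)) ∨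
      ((2 * w ≤ a ∧ 2 * w ≤ b) ∧ le (a - 2 * w) (b - 2 * w)))))

variable {w : ℕ} {P : Set ℕ} {le : ℕ → ℕ → Prop}

theorem mem_PB_of_ge {n : ℕ} (h : 2 * w ≤ n) : n ∈ PB w P ↔ n - 2 * w ∈ P := by
  simp only [PB, Set.mem_setOf_eq]
  constructor
  · rintro (h' | h')
    · omega
    · exact h'
  · exact Or.inr

theorem mem_PB_add {n : ℕ} : n + 2 * w ∈ PB w P ↔ n ∈ P := by
  rw [mem_PB_of_ge (by omega)]
  simp

theorem leB_add {a b : ℕ} (hsub : ∀ a b, le a b → a ∈ P ∧ b ∈ P)
    (hrefl : ∀ a ∈ P, le a a) : leB w P le (a + 2 * w) (b + 2 * w) ↔ le a b := by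
  unfold leB
  rw [mem_PB_add, mem_PB_add, Nat.add_sub_cancel, Nat.add_sub_cancel]
  constructor
  · rintro ⟨⟨ha, hb⟩, h | h | h | h⟩
    · have : a = b := by omega
      rw [← this]
      exact hrefl a ha
    · omega
    · omega
    · exact h.2
  · intro h
    exact ⟨hsub a b h, Or.inr (Or.inr (Or.inr ⟨⟨by omega, by omega⟩, h⟩))⟩

theorem compPoset (h : Pool.Agent.Helper3.DW.IsCompPoset P le) :
    Pool.Agent.Helper3.DW.IsCompPoset (PB w P) (leB w P le) := by
  have hsub : Computable (fun n : ℕ => n - 2 * w) :=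
    (Primrec.nat_sub.comp Primrec.id (Primrec.const (2 * w))).to_comp
  have hmem : ComputablePred (fun n : ℕ => n ∈ PB w P) :=
    cp_or (cp_prim (Primrec.nat_lt.comp Primrec.id (Primrec.const (2 * w)))) (cp_comp h.mem hsub)
  refine ⟨hmem, ?_, ?_, ?_, ?_, ?_⟩
  · have h1 : Computable (fun p : ℕ × ℕ => p.1) := Computable.fst
    have h2 : Computable (fun p : ℕ × ℕ => p.2) := Computable.snd
    have q1 : Primrec (fun p : ℕ × ℕ => p.1) := Primrec.fst
    have q2 : Primrec (fun p : ℕ × ℕ => p.2) := Primrec.snd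
    have qw : Primrec (fun _ : ℕ × ℕ => w) := Primrec.const w
    have q2w : Primrec (fun _ : ℕ × ℕ => 2 * w) := Primrec.const (2 * w)
    exact cp_and (cp_and (cp_comp hmem h1) (cp_comp hmem h2))
      (cp_or (cp_prim (Primrec.eq.comp q1 q2))
        (cp_or (cp_and (cp_prim (Primrec.nat_lt.comp q1 qw)) (cp_prim (Primrec.nat_le.comp qw q2)))
          (cp_or (cp_and (cp_and (cp_prim (Primrec.nat_le.comp qw q2))
            (cp_prim (Primrec.nat_lt.comp q2 q2w)))
            (cp_or (cp_prim (Primrec.nat_lt.comp q1 qw)) (cp_prim (Primrec.nat_le.comp q2w q1))))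
            (cp_and (cp_and (cp_prim (Primrec.nat_le.comp q2w q1))
              (cp_prim (Primrec.nat_le.comp q2w q2)))
              (cp_comp h.rel (Computable.pair (hsub.comp h1) (hsub.comp h2)))))))
  · intro a b hab
    exact hab.1
  · intro a ha
    exact ⟨⟨ha, ha⟩, Or.inl rfl⟩
  · rintro a b c ⟨⟨ha, hb⟩, hab⟩ ⟨⟨_, hc⟩, hbc⟩
    refine ⟨⟨ha, hc⟩, ?_⟩
    rcases hab with hab | hab | hab | hab
    · rw [hab]; exact hbc
    · rcases hbc with hbc | hbc | hbc | hbc
      · right; left; omega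
      · right; left; omega
      · right; left; omega
      · right; left; omega
    · rcases hbc with hbc | hbc | hbc | hbc
      · right; right; left; omega
      · omega
      · omega
      · omega
    · rcases hbc with hbc | hbc | hbc | hbc
      · right; right; right
        rw [← hbc]
        exact hab
      · omega
      · right; right; left; omega
      · right; right; right
        exact ⟨⟨hab.1.1, hbc.1.2⟩, h.trans _ _ _ hab.2 hbc.2⟩
  · rintro a b ⟨_, hab⟩ ⟨_, hba⟩
    rcases hab with hab | hab | hab | hab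
    · exact hab
    · rcases hba with hba | hba | hba | hba
      · exact hba.symm
      · omega
      · omega
      · omega
    · rcases hba with hba | hba | hba | hba
      · exact hba.symm
      · omega
      · omega
      · omega
    · rcases hba with hba | hba | hba | hba
      · exact hba.symm
      · omega
      · omega
      · have := h.antisymm _ _ hab.2 hba.2
        omega

theorem wleB (h : WLe P le w) (hr : ∀ a ∈ P, le a a) (hs : ∀ a b, le a b → a ∈ P ∧ b ∈ P) :
    WLe (PB w P) (leB w P le) w := by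
  intro s hsP hsA
  rcases Nat.eq_zero_or_pos s.card with h0 | h0
  · omega
  obtain ⟨a, ha⟩ := Finset.card_pos.1 h0
  by_cases h1 : a < w
  · have hsub : s ⊆ Finset.range w := by
      intro b hb
      rw [Finset.mem_range]
      by_contra hbw
      have hab : a ≠ b := by omega
      exact hsA a ha b hb hab ⟨⟨hsP a ha, hsP b hb⟩, Or.inr (Or.inl ⟨h1, by omega⟩)⟩
    simpa using Finset.card_le_card hsub
  by_cases h2 : a < 2 * w
  · have hsub : s ⊆ Finset.Ico w (2 * w) := by
      intro b hb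
      rw [Finset.mem_Ico]
      by_contra hbw
      have hab : b ≠ a := by omega
      exact hsA b hb a ha hab ⟨⟨hsP b hb, hsP a ha⟩,
        Or.inr (Or.inr (Or.inl ⟨⟨by omega, h2⟩, by omega⟩))⟩
    have := Finset.card_le_card hsub
    rw [Nat.card_Ico] at this
    omega
  · have hge : ∀ b ∈ s, 2 * w ≤ b := by
      intro b hb
      by_contra hbw
      by_cases h3 : b < w
      · exact hsA b hb a ha (by omega) ⟨⟨hsP b hb, hsP a ha⟩, Or.inr (Or.inl ⟨h3, by omega⟩)⟩
      · exact hsA a ha b hb (by omega) ⟨⟨hsP a ha, hsP b hb⟩,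
          Or.inr (Or.inr (Or.inl ⟨⟨by omega, by omega⟩, by omega⟩))⟩
    have hinj : Set.InjOn (fun n => n - 2 * w) (s : Set ℕ) := by
      intro x hx y hy hxy
      have hx' := hge x hx
      have hy' := hge y hy
      simp only at hxy
      omega
    rw [← Finset.card_image_of_injOn hinj]
    apply h
    · intro y hy
      obtain ⟨x, hx, rfl⟩ := Finset.mem_image.1 hy
      exact (mem_PB_of_ge (hge x hx)).1 (hsP x hx)
    · intro y hy z hz hyz hle
      obtain ⟨x, hx, rfl⟩ := Finset.mem_image.1 hy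
      obtain ⟨x', hx', rfl⟩ := Finset.mem_image.1 hz
      have hxx : x ≠ x' := fun e => hyz (by rw [e])
      exact hsA x hx x' hx' hxx ⟨⟨hsP x hx, hsP x' hx'⟩,
        Or.inr (Or.inr (Or.inr ⟨⟨hge x hx, hge x' hx'⟩, hle⟩))⟩

theorem PARTB (hA : ST_PARTA) : ST_PARTB := by
  intro w N Good P A le hw hSt hP hW hAP hAc hX
  have hP' : Pool.Agent.Helper3.DW.IsCompPoset (PB w P) (leB w P le) := compPoset hP
  have hW' : WLe (PB w P) (leB w P le) w := wleB hW hP.refl hP.sub
  -- the shifted set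
  let A' : Set ℕ := {n | 2 * w ≤ n ∧ n - 2 * w ∈ A}
  have hA'P : A' ⊆ PB w P := fun n hn => (mem_PB_of_ge hn.1).2 (hAP hn.2)
  have hsub : Computable (fun n : ℕ => n - 2 * w) :=
    (Primrec.nat_sub.comp Primrec.id (Primrec.const (2 * w))).to_comp
  have hA'c : ComputablePred (fun n : ℕ => n ∈ A') :=
    cp_and (cp_prim (Primrec.nat_le.comp (Primrec.const (2 * w)) Primrec.id)) (cp_comp hAc hsub)
  have hA'X : ∀ n ∈ A', ∃ X : Fin w → ℕ, Anti (PB w P) (leB w P le) X ∧ ∃ i, X i = n := by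
    intro n hn
    obtain ⟨X, hX1, i, hi⟩ := hX _ hn.2
    refine ⟨fun j => X j + 2 * w, ⟨fun j => mem_PB_add.2 (hX1.1 j), fun j k hjk hle => ?_⟩, i, ?_⟩
    · exact hX1.2 j k hjk ((leB_add hP.sub hP.refl).1 hle)
    · show X i + 2 * w = n
      rw [hi]
      have := hn.1
      omega
  have hbot : Anti (PB w P) (leB w P le) (fun i : Fin w => (i : ℕ)) := by
    refine ⟨fun i => Or.inl ?_, fun i j hij hle => ?_⟩
    · have := i.2
      show (i : ℕ) < 2 * w
      omega
    have h1 := i.2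
    have h2 := j.2
    have h3 : (i : ℕ) ≠ j := fun e => hij (Fin.ext e)
    have hle2 := hle.2
    simp only at hle2
    rcases hle2 with h | h | h | h
    · exact h3 h
    · omega
    · omega
    · omega
  have htop : Anti (PB w P) (leB w P le) (fun i : Fin w => w + (i : ℕ)) := by
    refine ⟨fun i => Or.inl ?_, fun i j hij hle => ?_⟩
    · have := i.2
      show w + (i : ℕ) < 2 * w
      omega
    have h1 := i.2
    have h2 := j.2
    have h3 : (i : ℕ) ≠ j := fun e => hij (Fin.ext e)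
    have hle2 := hle.2
    simp only at hle2
    rcases hle2 with h | h | h | h
    · omega
    · omega
    · omega
    · omega
  have hbt : ∀ i j : Fin w, leB w P le (i : ℕ) (w + (j : ℕ)) := by
    intro i j
    exact ⟨⟨hbot.1 i, htop.1 j⟩, Or.inr (Or.inl ⟨i.2, by omega⟩)⟩
  have hAbt : ∀ n ∈ A', (∃ a : Fin w, leB w P le (a : ℕ) n) ∧
      ∃ b : Fin w, leB w P le n (w + (b : ℕ)) := by
    intro n hn
    have hn1 := hn.1
    refine ⟨⟨⟨0, hw⟩, ⟨hbot.1 _, hA'P hn⟩, Or.inr (Or.inl ⟨hw, by omega⟩)⟩,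
      ⟨⟨0, hw⟩, ⟨hA'P hn, htop.1 _⟩, Or.inr (Or.inr (Or.inl ⟨⟨by omega, ?_⟩, Or.inr hn1⟩))⟩⟩
    show w + 0 < 2 * w
    omega
  obtain ⟨C, hC, hcov⟩ := hA w N Good (PB w P) A' (leB w P le) _ _ hw hSt hP' hW' hA'P hA'c hA'X
    hbot htop hbt hAbt
  refine ⟨fun i => {n | n + 2 * w ∈ C i}, fun i => ⟨?_, ?_, ?_⟩, ?_⟩
  · intro n hn
    have := (hC i).1 hn
    have h2 : n + 2 * w - 2 * w ∈ A := this.2
    rwa [Nat.add_sub_cancel] at h2
  · have h1 : Computable (fun n : ℕ => n + 2 * w) :=
      (Primrec.nat_add.comp Primrec.id (Primrec.const (2 * w))).to_comp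
    exact (cp_comp (hC i).2.1 h1 :)
  · intro a ha b hb
    rcases (hC i).2.2 _ ha _ hb with h | h
    · exact Or.inl ((leB_add hP.sub hP.refl).1 h)
    · exact Or.inr ((leB_add hP.sub hP.refl).1 h)
  · intro n hn
    have h1 : n + 2 * w ∈ A' := ⟨by omega, by rw [Nat.add_sub_cancel]; exact hn⟩
    have h2 := hcov h1
    rw [Set.mem_iUnion] at h2 ⊢
    exact h2

end Pool.Agent.Helper22.PL
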